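import Mathlib
import Pool.Agent.T2h38.OG.Stm
import Pool.Agent.T2h38.OG.Avg2
import Pool.Agent.T2h38.OG.T_SCA
import Pool.Agent.T2h38.OG.T_EXM
import Pool.Agent.T2h38.OG.T_CRD
import Pool.Agent.T2h38.OG.T_NPI
import Pool.Agent.T2h38.OG.T_INR
import Pool.Agent.T2h38.OG.T_INC
import Pool.Agent.T2h38.OG.T_BLK
import Pool.Agent.T2h38.OG.T_LSB
import Pool.Agent.T2h38.OG.T_LSD
import Pool.Agent.T2h38.OG.T_LOS
import Pool.Agent.T2h38.OG.T_GAI
import Pool.Agent.T2h38.OG.T_WRO
import Pool.Agent.T2h38.OG.T_COD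
import Pool.Agent.T2h38.OG.T_ADV
import Pool.Agent.T2h38.OG.T_WGT
import Pool.Agent.T2h38.OG.T_SMP
import Pool.Agent.T2h38.OG.T_ONE
import Pool.Agent.T2h38.OG.T_SCQ
import Pool.Agent.T2h38.OG.T_NUM
import Pool.Agent.T2h38.OG.T_ARI

/-!
# Emptiness of intersections: t fully adaptive probes to cells which depend on all sets

A family of sets of total size `N` is preprocessed into

* `S` *joint cells* of `w` bits, which are arbitrary functions of the whole family,
* `r` bits, an arbitrary function of the whole family, which every query knows for free, and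
* an unlimited *separate memory* for each set, an arbitrary function of this one set (and of its
  index, of the `r` free bits and of the coins).

A query `(i, j)` has to decide whether the sets `i` and `j` meet. It reads at most `t` joint cells
and at most `b` bits (`T` cells of `w'` bits, `T * w' ≤ b`) of the separate memories of `i` and `j`,
adaptively in any order: the address of the next cell may depend on everything that has been read
before. Everything may be random, with error probability `1 / (200000 (3 t) ^ t)`.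

The theorem: `N ≤ C_t r` or `N ^ (t + 1) ≤ (C_t S w) ^ t D²`, where `D` is any number with
`D ≥ 100 b`, `D ≥ C_t (l + w + 1)` (`N, S ≤ 2^l`) and `400 (3 t)^t D² ≤ N`. So for constant `t`, words of `O(log N)`
bits and `r ≤ c_t N` free bits the number of joint cells is at least `N (N / b²) ^ (1 / t)` up to powers
of `log N`, for EVERY `b` from 1 to `c_t N^(1/2)`; for `t = 1` this is `(N / b)²`, which is tight (table of the
answers for all pairs of sets with more than about `b / log N` elements), and for polylogarithmic `b` it is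
`N ^ (1 + 1 / t)`. The earlier result `ProbesToJointMemory` needs `b ≥ N^(1/3)` (up to logarithms); in the
starting result `AdaptiveJointProbe` there is one joint probe, and its address depends on one half of
the family only.

Proof. There are `k` sets on each side, `o e` is the set of the joint cells read by the query of the
pair `e = (i, j)`. Let `2^(-u)` be a rate with `k 2^(-u t) ≈ Λ = c_t D`. A block is a set `B` of cells with a label
(global, a row, or a column); for a row or a column its load is the number of pairs of this row or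
column whose query reads all of `B`, and its scale `a` is given by load `≈ Λ 2^(u (t - |B|) + a)`. The block is
chosen with probability `2^(-(u |B| - a))`, independently for the rows and the columns; the contents of the
chosen blocks with positive scale (a bounded number for each row and each column) and of the global
sample are given by advice. A pair survives if `o e` is a disjoint union of chosen blocks and some
bits of `e` itself vanish, so that the probability for a fixed decomposition is `2^(-u t)`. For the decomposition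
with the largest sum of the scales the expected number of survivors in its row and its column, given that
the pair survives, is `O_t(Λ)`: a shared set of cells with a larger load would be a better block. The
inequality of `ProbesToJointMemory` for sets of pairs with at most `D` elements in each row and column gives
the bound.
-/

namespace Pool.Agent.Results.MP_f326ae_lc.AdaptiveJointProbes

open Finset Pool.Agent.T2h38.JM Pool.Agent.T2h38.OG

/-- A randomised data structure for families of `m` subsets of `Fin u`, with a free joint memory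
with `R` possible contents, `S` joint cells holding elements of `Fin V`, and with a separate memory
for each set, whose cells (with addresses in `A`) hold elements of `Fin W`; `ι` is the set of
outcomes of the coins. -/
structure DS (m u R S V W : ℕ) (A ι : Type) where
  /-- the free joint memory, a function of the whole family -/
  free : ι → (Fin m → Finset (Fin u)) → Fin R
  /-- the joint cells, functions of the whole family -/
  joint : ι → (Fin m → Finset (Fin u)) → Fin S → Fin V
  /-- the separate memory of the set with index `i`, a function of this set alone, of the free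
  joint memory and of the coins -/
  mem : ι → Fin R → Fin m → Finset (Fin u) → A → Fin W
  /-- the query algorithm for the pair `(i, j)`: it knows the coins and the free joint memory, and
  reads the joint cells and the separate memories of `i` and `j` adaptively -/
  query : ι → Fin R → Fin m → Fin m → QAlg A S V W

/-- With the coins `c`, on the family `F`, the query `(i, j)` reads at most `T` cells of the
separate memories and at most `t` joint cells and answers correctly whether `F i` and `F j`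
meet. -/
def DS.Good {m u R S V W : ℕ} {A ι : Type} (X : DS m u R S V W A ι) (c : ι)
    (F : Fin m → Finset (Fin u)) (i j : Fin m) (T t : ℕ) : Prop :=
  (X.query c (X.free c F) i j).reads (X.joint c F) (X.mem c (X.free c F) i (F i))
    (X.mem c (X.free c F) j (F j)) ≤ T ∧
  (X.query c (X.free c F) i j).probes (X.joint c F) (X.mem c (X.free c F) i (F i))
    (X.mem c (X.free c F) j (F j)) ≤ t ∧
  (X.query c (X.free c F) i j).eval (X.joint c F) (X.mem c (X.free c F) i (F i))
    (X.mem c (X.free c F) j (F j)) = decide ((F i ∩ F j).Nonempty)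

/-- The set of a function. -/
def enc (n N : ℕ) (x : Fin n → Fin n) : Finset (Fin (n * n + N)) :=
  univ.image fun l : Fin n => Fin.castAdd N (finProdFinEquiv (l, x l))

/-- The padding set. -/
def pad (n N s : ℕ) (hs : s ≤ N) : Finset (Fin (n * n + N)) :=
  univ.image fun l : Fin s => Fin.natAdd (n * n) (Fin.castLE hs l)

theorem enc_card (n N : ℕ) (x : Fin n → Fin n) : (enc n N x).card = n := by
  unfold enc
  rw [Finset.card_image_of_injective]
  · simp
  · intro l l' h
    have h1 := finProdFinEquiv.injective (Fin.castAdd_injective _ _ h)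
    exact congrArg Prod.fst h1

theorem pad_card (n N s : ℕ) (hs : s ≤ N) : (pad n N s hs).card = s := by
  unfold pad
  rw [Finset.card_image_of_injective]
  · simp
  · intro l l' h
    exact Fin.castLE_injective hs (Fin.natAdd_injective _ _ h)

theorem enc_meet (n N : ℕ) (x y : Fin n → Fin n) :
    decide ((enc n N x ∩ enc n N y).Nonempty) = !(dj x y) := by
  have h : (enc n N x ∩ enc n N y).Nonempty ↔ ¬ (∀ i, x i ≠ y i) := by
    constructor
    · rintro ⟨v, hv⟩ hd
      rw [mem_inter] at hv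
      unfold enc at hv
      rw [mem_image, mem_image] at hv
      obtain ⟨⟨l, _, hl⟩, ⟨l', _, hl'⟩⟩ := hv
      have h1 := finProdFinEquiv.injective (Fin.castAdd_injective _ _ (hl.trans hl'.symm))
      rw [Prod.mk.injEq] at h1
      obtain ⟨h2, h3⟩ := h1
      rw [← h2] at h3
      exact hd l h3
    · intro hd
      push Not at hd
      obtain ⟨l, hl⟩ := hd
      refine ⟨Fin.castAdd N (finProdFinEquiv (l, x l)), ?_⟩
      rw [mem_inter]
      unfold enc
      rw [mem_image, mem_image]
      exact ⟨⟨l, mem_univ _, rfl⟩, ⟨l, mem_univ _, by rw [hl]⟩⟩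
  by_cases hd : ∀ i, x i ≠ y i
  · have h1 : ¬ (enc n N x ∩ enc n N y).Nonempty := fun h2 => (h.1 h2) hd
    have h2 : dj x y = true := by
      unfold dj
      exact decide_eq_true hd
    rw [h2]
    exact decide_eq_false h1
  · have h2 : dj x y = false := by
      unfold dj
      exact decide_eq_false hd
    rw [h2]
    exact decide_eq_true (h.2 hd)

/-- The hard family. -/
def fam (n N k s : ℕ) (hs : s ≤ N)
    (z : (Fin k → Fin n → Fin n) × (Fin k → Fin n → Fin n)) :
    Fin (k + k + 1) → Finset (Fin (n * n + N)) :=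
  Fin.snoc (α := fun _ => Finset (Fin (n * n + N)))
    (Fin.append (fun i => enc n N (z.1 i)) (fun j => enc n N (z.2 j)))
    (pad n N s hs)

theorem fam_left (n N k s : ℕ) (hs : s ≤ N)
    (z : (Fin k → Fin n → Fin n) × (Fin k → Fin n → Fin n)) (i : Fin k) :
    fam n N k s hs z (Fin.castAdd k i).castSucc = enc n N (z.1 i) := by
  unfold fam
  rw [Fin.snoc_castSucc, Fin.append_left]

theorem fam_right (n N k s : ℕ) (hs : s ≤ N)
    (z : (Fin k → Fin n → Fin n) × (Fin k → Fin n → Fin n)) (j : Fin k) :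
    fam n N k s hs z (Fin.natAdd k j).castSucc = enc n N (z.2 j) := by
  unfold fam
  rw [Fin.snoc_castSucc, Fin.append_right]

theorem fam_card (n N k : ℕ) (hs : N - 2 * k * n ≤ N) (hk : 2 * k * n ≤ N)
    (z : (Fin k → Fin n → Fin n) × (Fin k → Fin n → Fin n)) :
    ∑ i, (fam n N k (N - 2 * k * n) hs z i).card = N := by
  have hlast : fam n N k (N - 2 * k * n) hs z (Fin.last (k + k)) =
      pad n N (N - 2 * k * n) hs := by
    unfold fam
    rw [Fin.snoc_last]
  rw [Fin.sum_univ_castSucc, Fin.sum_univ_add, hlast, pad_card]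
  simp_rw [fam_left, fam_right, enc_card]
  rw [Finset.sum_const, Finset.card_univ, Fintype.card_fin, smul_eq_mul]
  have : k * n + k * n = 2 * k * n := by ring
  omega

open Classical in
/-- The theorem from its parts. -/
theorem main (hONE : ∀ (α A : Type) [Fintype α] [Nonempty α] (k S V W r : ℕ) (L ε : ℝ), 1 < L → 0 ≤ ε →
    ∀ (d : α → α → Bool) (q : Fin r → Fin k → Fin k → QAlg A S V W)
      (a a' : Fin r → Fin k → α → A → Fin W) (φ : (Fin k → α) × (Fin k → α) → Fin r)
      (T t D : ℕ) (_ : Fin V) (J : (Fin k → α) × (Fin k → α) → Fin S → Fin V),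
    HSC t L ε d q a a' T D →
    ∀ (u Λ h0 : ℕ), 1 ≤ t → 0 < Λ → k ≤ Λ * 2 ^ (u * t) → 1 ≤ k → 512 * (t + 2 ^ (t + 1)) ≤ h0 →
    512 * (1 + 2 ^ t * (3 * t) ^ t * Λ) ≤ D →
    ∑ z : (Fin k → α) × (Fin k → α), ∑ e : Fin k × Fin k,
      ((if d (z.1 e.1) (z.2 e.2) = true then Real.log L else 0) - (3 * (t : ℝ)) ^ t *
        ((if (oo t q a a' φ T J z e).1 ≠ some (!(d (z.1 e.1) (z.2 e.2))) then
          Real.log L + Real.log 2 else 0) + ε)) ≤
      (Fintype.card ((Fin k → α) × (Fin k → α)) : ℕ) *
        (Real.log L / 128 * (k : ℝ) ^ 2 + 2 ^ (u * (t - 1)) * (S * Real.log V) +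
          2 ^ (u * t) * (Real.log 2 +
            2 * (k * h0 * Real.log (((S : ℝ) * V + 1) ^ t * ((u : ℝ) * t + 1) + 1)) +
            2 * k * Real.log 2 + Real.log r)))
    (hSCQ : S_SCQ) (hNUM : S_NUM) (hFNR : S_FNR) (hFNS : S_FNS) (hPAR : S_PAR)
    (N t w l b D : ℕ) (ht : 1 ≤ t) (hN : N ≤ 2 ^ l) (hb : 100 * b ≤ D)
    (hD1 : 2 ^ 42 * (5 * t) ^ (3 * t) * (l + w + 1) ≤ D) (hD2 : 400 * (3 * t) ^ t * D ^ 2 ≤ N) :
    ∃ m u : ℕ, ∀ r S T w' : ℕ, S ≤ 2 ^ l → T * w' ≤ b →
      ∀ (A ι : Type) [Fintype ι] (pr : ι → ℝ), (∀ c, 0 ≤ pr c) → ∑ c, pr c = 1 →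
      ∀ X : DS m u (2 ^ r) S (2 ^ w) (2 ^ w') A ι,
      (∀ F : Fin m → Finset (Fin u), ∑ i, (F i).card = N → ∀ i j : Fin m, i ≠ j →
        ∑ c, (if X.Good c F i j T t then 0 else pr c) ≤ 1 / (200000 * (3 * (t : ℝ)) ^ t)) →
      N ≤ 2 ^ 32 * (6 * t) ^ (2 * t) * r ∨
      N ^ (t + 1) ≤ (2 ^ 42 * (5 * t) ^ (3 * t) * (S * w)) ^ t * D ^ 2 := by
  -- the sizes
  set Q := (3 * t) ^ t with hQ
  have hQ1 : 1 ≤ Q := Nat.one_le_iff_ne_zero.2 (by positivity)
  have hDbig : 2 ^ 42 ≤ D := by
    have h1 : 1 ≤ (5 * t) ^ (3 * t) * (l + w + 1) := Nat.one_le_iff_ne_zero.2 (by positivity)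
    calc 2 ^ 42 = 2 ^ 42 * 1 := by norm_num
      _ ≤ 2 ^ 42 * ((5 * t) ^ (3 * t) * (l + w + 1)) := Nat.mul_le_mul_left _ h1
      _ = 2 ^ 42 * (5 * t) ^ (3 * t) * (l + w + 1) := by ring
      _ ≤ D := hD1
  have hDpos : 0 < D := lt_of_lt_of_le (by norm_num) hDbig
  set n := 200 * Q * D with hn
  set k := N / (2 * n) with hk
  have hnbig : 200 * D ≤ n := by
    rw [hn]
    calc 200 * D = 200 * 1 * D := by ring
      _ ≤ 200 * Q * D := Nat.mul_le_mul_right _ (Nat.mul_le_mul_left _ hQ1)
  have hn0 : 0 < 2 * n := by omega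
  have hkD : D ≤ k := by
    rw [hk, Nat.le_div_iff_mul_le hn0]
    calc D * (2 * n) = 400 * Q * D ^ 2 := by rw [hn]; ring
      _ ≤ N := hD2
  have hk1 : 1 ≤ k := by omega
  have hkN : 2 * k * n ≤ N := by
    have := Nat.div_mul_le_self N (2 * n)
    rw [← hk] at this
    calc 2 * k * n = k * (2 * n) := by ring
      _ ≤ N := this
  have hs : N - 2 * k * n ≤ N := Nat.sub_le _ _
  have hn2 : 2 ≤ n := by omega
  have hkleN : k ≤ N := Nat.div_le_self _ _
  have hN800 : N ≤ 800 * Q * (k * D) := by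
    have h1 : N < 2 * n * (k + 1) := Nat.lt_mul_div_succ N hn0
    have h2 : 2 * n * (k + 1) ≤ 2 * n * (2 * k) := Nat.mul_le_mul_left _ (by omega)
    calc N ≤ 2 * n * (2 * k) := by omega
      _ = 800 * Q * (k * D) := by rw [hn]; ring
  obtain ⟨Λ, μ, hΛ0, hμ1, hμ2, hΛD, hΛ5, hΛ28⟩ := hPAR k D t l w ht hkD hD1
  refine ⟨k + k + 1, n * n + N, ?_⟩
  intro r S T w' hS hTw A ι _ pr hpr0 hpr1 X hX
  have hne : ∀ i j : Fin k,
      (Fin.castAdd k i).castSucc ≠ ((Fin.natAdd k j).castSucc : Fin (k + k + 1)) := by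
    intro i j h
    have h1 := congrArg Fin.val h
    simp only [Fin.val_castSucc, Fin.val_castAdd, Fin.val_natAdd] at h1
    have := i.2
    omega
  have hNe : Nonempty (Fin n → Fin n) := ⟨id⟩
  obtain ⟨bad, hbad⟩ : ∃ bad : ι → (Fin k → Fin n → Fin n) × (Fin k → Fin n → Fin n) →
      Fin k × Fin k → Prop, ∀ c z e, bad c z e ↔ ¬ X.Good c (fam n N k (N - 2 * k * n) hs z)
        (Fin.castAdd k e.1).castSucc (Fin.natAdd k e.2).castSucc T t :=
    ⟨fun c z e => ¬ X.Good c (fam n N k (N - 2 * k * n) hs z) (Fin.castAdd k e.1).castSucc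
      (Fin.natAdd k e.2).castSucc T t, fun _ _ _ => Iff.rfl⟩
  set L : ℝ := 1 + 1 / 160 with hL
  have hL1 : 1 < L := by rw [hL]; norm_num
  have hQR : ((Q : ℕ) : ℝ) = (3 * (t : ℝ)) ^ t := by
    rw [hQ]
    push_cast
    rfl
  have hQ0 : (0 : ℝ) < (3 * (t : ℝ)) ^ t := by
    rw [← hQR]
    exact_mod_cast hQ1
  set B : ℝ := Real.log L / 128 * (k : ℝ) ^ 2 + 2 ^ (μ * (t - 1)) * (S * Real.log ((2 ^ w : ℕ) : ℝ)) +
        2 ^ (μ * t) * (Real.log 2 +
          2 * (k * (512 * (t + 2 ^ (t + 1)) : ℕ) *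
            Real.log (((S : ℝ) * ((2 ^ w : ℕ) : ℝ) + 1) ^ t * ((μ : ℝ) * t + 1) + 1)) +
          2 * k * Real.log 2 + Real.log ((2 ^ r : ℕ) : ℝ)) with hB
  set Zc : ℝ := ((Fintype.card ((Fin k → (Fin n → Fin n)) × (Fin k → (Fin n → Fin n))) : ℕ) : ℝ)
    with hZc
  have hZ0 : 0 < Zc := by
    rw [hZc]
    exact_mod_cast Fintype.card_pos
  have hlogk : 8000 * (Q : ℝ) * Real.log (2 * (k : ℝ) ^ 2) ≤ ((n : ℕ) : ℝ) := by
    have h1 : 2 * (k : ℝ) ^ 2 ≤ (2 : ℝ) ^ (2 * l + 1) := by
      have h2 : 2 * k ^ 2 ≤ 2 ^ (2 * l + 1) := by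
        calc 2 * k ^ 2 ≤ 2 * (2 ^ l) ^ 2 :=
              Nat.mul_le_mul_left _ (Nat.pow_le_pow_left (hkleN.trans hN) 2)
          _ = 2 ^ (2 * l + 1) := by ring
      exact_mod_cast h2
    have h2 : 0 < 2 * (k : ℝ) ^ 2 := by
      have : (0 : ℝ) < k := by exact_mod_cast hk1
      positivity
    have h3 : Real.log (2 * (k : ℝ) ^ 2) ≤ ((2 * l + 1 : ℕ) : ℝ) * Real.log 2 := by
      rw [← Real.log_pow]
      exact Real.log_le_log h2 (by exact_mod_cast h1)
    have h4 := Real.log_two_lt_d9
    have h5 : 28 * (2 * l + 1) ≤ D := by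
      have h7 : l + w + 1 ≤ (5 * t) ^ (3 * t) * (l + w + 1) :=
        Nat.le_mul_of_pos_left _ (by positivity)
      have h8 : 2 ^ 42 * (l + w + 1) ≤ 2 ^ 42 * ((5 * t) ^ (3 * t) * (l + w + 1)) :=
        Nat.mul_le_mul_left _ h7
      have h9 : 2 ^ 42 * ((5 * t) ^ (3 * t) * (l + w + 1)) =
        2 ^ 42 * (5 * t) ^ (3 * t) * (l + w + 1) := by ring
      have h10 : 28 * (2 * l + 1) ≤ 2 ^ 42 * (l + w + 1) := by
        norm_num
        omega
      omega
    have h6 : (28 : ℝ) * ((2 * l + 1 : ℕ) : ℝ) ≤ D := by exact_mod_cast h5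
    have h7 : 40 * Real.log (2 * (k : ℝ) ^ 2) ≤ D := by
      have h8 : ((2 * l + 1 : ℕ) : ℝ) * Real.log 2 ≤ ((2 * l + 1 : ℕ) : ℝ) * (7 / 10) :=
        mul_le_mul_of_nonneg_left (by linarith) (Nat.cast_nonneg _)
      linarith
    rw [hn]
    have h8 := mul_le_mul_of_nonneg_left h7 (by positivity : (0 : ℝ) ≤ 200 * (Q : ℝ))
    push_cast at h8 ⊢
    linarith
  -- the inequality for fixed coins
  have hcoin : ∀ c : ι, ∑ z : (Fin k → Fin n → Fin n) × (Fin k → Fin n → Fin n),
      ∑ e : Fin k × Fin k, ((if dj (z.1 e.1) (z.2 e.2) = true then Real.log L else 0) -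
        (3 * (t : ℝ)) ^ t * ((if bad c z e then Real.log L + Real.log 2 else 0) +
          1 / (4000 * (Q : ℝ)))) ≤ Zc * B := by
    intro c
    have hWT : (2 ^ w') ^ T ≤ 2 ^ b := by
      rw [← pow_mul]
      exact Nat.pow_le_pow_right (by norm_num) (by rw [mul_comm]; exact hTw)
    set q : Fin (2 ^ r) → Fin k → Fin k → QAlg A S (2 ^ w) (2 ^ w') := fun x i j =>
      X.query c x (Fin.castAdd k i).castSucc (Fin.natAdd k j).castSucc with hq
    set a : Fin (2 ^ r) → Fin k → (Fin n → Fin n) → A → Fin (2 ^ w') := fun x i y =>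
      X.mem c x (Fin.castAdd k i).castSucc (enc n N y) with ha
    set a' : Fin (2 ^ r) → Fin k → (Fin n → Fin n) → A → Fin (2 ^ w') := fun x j y =>
      X.mem c x (Fin.natAdd k j).castSucc (enc n N y) with ha'
    set φ : (Fin k → Fin n → Fin n) × (Fin k → Fin n → Fin n) → Fin (2 ^ r) := fun z =>
      X.free c (fam n N k (N - 2 * k * n) hs z) with hφ
    set J : (Fin k → Fin n → Fin n) × (Fin k → Fin n → Fin n) → Fin S → Fin (2 ^ w) := fun z =>
      X.joint c (fam n N k (N - 2 * k * n) hs z) with hJ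
    have v0 : Fin (2 ^ w) := ⟨0, Nat.pos_of_ne_zero (by positivity)⟩
    have hbn : 20000 * Q * b ≤ n := by
      rw [hn]
      calc 20000 * Q * b = 200 * Q * (100 * b) := by ring
        _ ≤ 200 * Q * D := Nat.mul_le_mul_left _ hb
    have hsc : HSC t L (1 / (4000 * (Q : ℝ))) (dj (n := n)) q a a' T D := fun P x ρ H' E =>
      hSCQ A k S (2 ^ w) (2 ^ w') Q n T t D b hQ1 (by omega) Nat.one_le_two_pow hWT hbn
        (by rw [hn]) hk1 hlogk _ _ _ P ρ H' E
    have e4 := hONE (Fin n → Fin n) A k S (2 ^ w) (2 ^ w') (2 ^ r) L (1 / (4000 * (Q : ℝ))) hL1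
      (by positivity) dj q a a' φ T t D v0 J hsc μ Λ (512 * (t + 2 ^ (t + 1))) ht hΛ0 hμ1 hk1
      le_rfl hΛ5
    have h2 : ∀ (z : (Fin k → Fin n → Fin n) × (Fin k → Fin n → Fin n)) (e : Fin k × Fin k),
        bad c z e ↔ (oo t q a a' φ T J z e).1 ≠ some (!(dj (z.1 e.1) (z.2 e.2))) := by
      intro z e
      rw [hbad c z e]
      unfold oo
      rw [Ne, run_iff]
      unfold DS.Good
      rw [fam_left, fam_right, enc_meet]
    refine le_trans (le_of_eq ?_) (e4.trans (le_of_eq ?_))
    · refine Finset.sum_congr rfl fun z _ => Finset.sum_congr rfl fun e _ => ?_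
      by_cases hb' : bad c z e
      · rw [if_pos hb', if_pos ((h2 z e).1 hb')]
      · rw [if_neg hb', if_neg (fun h => hb' ((h2 z e).2 h))]
    · rw [hB, hZc]
  have havg := avg2 n k hn2 L (1 / (4000 * (Q : ℝ))) ((3 * (t : ℝ)) ^ t) hL1 hQ0 pr hpr1 bad
    (by
      intro z e
      have h1 := hX (fam n N k (N - 2 * k * n) hs z) (fam_card n N k hs hkN z) _ _ (hne e.1 e.2)
      refine le_trans (le_of_eq ?_) h1
      refine Finset.sum_congr rfl fun c _ => ?_
      by_cases hg : X.Good c (fam n N k (N - 2 * k * n) hs z) (Fin.castAdd k e.1).castSucc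
        (Fin.natAdd k e.2).castSucc T t
      · have hb' : ¬ bad c z e := fun h => (hbad c z e).1 h hg
        rw [if_neg hb', if_pos hg]
      · have hb' : bad c z e := (hbad c z e).2 hg
        rw [if_pos hb', if_neg hg])
  rw [← hZc] at havg
  have hup : ∑ c, pr c * ∑ z : (Fin k → Fin n → Fin n) × (Fin k → Fin n → Fin n),
      ∑ e : Fin k × Fin k, ((if dj (z.1 e.1) (z.2 e.2) = true then Real.log L else 0) -
        (3 * (t : ℝ)) ^ t * ((if bad c z e then Real.log L + Real.log 2 else 0) +
          1 / (4000 * (Q : ℝ)))) ≤ Zc * B := by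
    refine (Finset.sum_le_sum fun c _ =>
      mul_le_mul_of_nonneg_left (hcoin c) (hpr0 c)).trans ?_
    rw [← Finset.sum_mul, hpr1, one_mul]
  have hmain : (k : ℝ) ^ 2 * (Real.log (1 + 1 / 160) / 4 -
      (Real.log (1 + 1 / 160) + Real.log 2) / 200000 - 1 / 4000) ≤ B := by
    have h1 := le_of_mul_le_mul_left (havg.trans hup) hZ0
    have h2 : (3 * (t : ℝ)) ^ t * (1 / (4000 * (Q : ℝ))) = 1 / 4000 := by
      rw [hQR]
      field_simp
    rw [h2] at h1
    exact h1
  rw [hB] at hmain
  rcases hNUM k w l S r Λ t μ ht hk1 (hkleN.trans hN) hS hΛ28 hμ2 hmain with h1 | h1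
  · left
    exact hFNR N k D Λ t r ht hN800 hΛD h1
  · right
    exact hFNS N k D Λ t (S * w) ht hN800 hΛD h1

open Classical in
/-- **t fully adaptive probes to cells which depend on all sets.** Let `N ≤ 2 ^ l`, `100 b ≤ D`,
`2^42 (5 t)^(3 t) (l + w + 1) ≤ D` and `400 (3 t)^t D² ≤ N`. There are `m` and `u` such that for every
data structure for families of `m` subsets of `Fin u` of total size `N`, with `r` free joint bits,
`S ≤ 2 ^ l` joint cells of `w` bits, unlimited separate memories with cells of `w'` bits, whose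
queries read at most `t` joint cells and at most `T` cells of the separate memories, `T * w' ≤ b`,
and decide with error probability at most `1 / (200000 (3 t)^t)` whether two sets meet:
`N ≤ 2^32 (6 t)^(2 t) r` or `N ^ (t + 1) ≤ (2^42 (5 t)^(3 t) S w) ^ t D²`. -/
theorem result (N t w l b D : ℕ) (ht : 1 ≤ t) (hN : N ≤ 2 ^ l) (hb : 100 * b ≤ D)
    (hD1 : 2 ^ 42 * (5 * t) ^ (3 * t) * (l + w + 1) ≤ D) (hD2 : 400 * (3 * t) ^ t * D ^ 2 ≤ N) :
    ∃ m u : ℕ, ∀ r S T w' : ℕ, S ≤ 2 ^ l → T * w' ≤ b →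
      ∀ (A ι : Type) [Fintype ι] (pr : ι → ℝ), (∀ c, 0 ≤ pr c) → ∑ c, pr c = 1 →
      ∀ X : DS m u (2 ^ r) S (2 ^ w) (2 ^ w') A ι,
      (∀ F : Fin m → Finset (Fin u), ∑ i, (F i).card = N → ∀ i j : Fin m, i ≠ j →
        ∑ c, (if X.Good c F i j T t then 0 else pr c) ≤ 1 / (200000 * (3 * (t : ℝ)) ^ t)) →
      N ≤ 2 ^ 32 * (6 * t) ^ (2 * t) * r ∨
      N ^ (t + 1) ≤ (2 ^ 42 * (5 * t) ^ (3 * t) * (S * w)) ^ t * D ^ 2 :=
  main (t_ONE t_SMP t_GAI t_WRO t_LOS t_EXM t_SCA t_NPI t_CRD t_INR t_INC t_BLK t_LSB t_LSD t_ADV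
    t_COD t_WGT) t_SCQ t_NUM t_FNR t_FNS t_PAR N t w l b D ht hN hb hD1 hD2

end Pool.Agent.Results.MP_f326ae_lc.AdaptiveJointProbes
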