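import Mathlib
import Pool.Agent.T2h38.JM.CoreD

/-!
# Emptiness of intersections with a joint memory that is read for free

A family of subsets of a universe, partitioned into groups of at most `d` sets, is preprocessed into

* a *joint memory* of `r` bits, an arbitrary function of the whole family, which every query knows
  entirely and for free, and
* for every group a *separate memory*, unlimited, an arbitrary function of the sets of this group
  (and of the joint memory and of the coins).

The query `(i, j)` reads adaptively at most `T` cells of `w` bits of the separate memories of the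
groups of `i` and `j`, and has to decide whether the two sets meet, with a small error probability.

The theorem: for `20000 * b * d ≤ N` there are groups and a universe such that, if this is possible
for all families of total size `N` with `T * w ≤ b`, then `r + 1` is at least `N / 10 ^ 7` or at least
`(N / b) ^ 2 / (10 ^ 13 * d)`. For `d = 1` (a separate memory for each single set) this is the
minimum of `N` and `(N / b) ^ 2` up to constants; for the largest admissible `d` (in the proof, the
groups are then the two halves of the family) it is `N / b`.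
-/

namespace Pool.Agent.Results.MP_f326ae_lc.FreeJointMemory

open Finset Pool.Agent.T2h38.JM

/-- A randomised data structure for families of subsets of `Fin u` with index set `I`, partitioned
into groups by `grp : I → G`, with a joint memory having `R` possible contents and with separate
memories of the groups whose cells (with addresses in `A`) hold elements of `Fin W`; `ι` is the set
of outcomes of the coins. -/
structure DS (I G : Type) (grp : I → G) (u R W : ℕ) (A ι : Type) where
  /-- the joint memory, a function of the whole family -/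
  joint : ι → (I → Finset (Fin u)) → Fin R
  /-- the separate memory of the group `q`, a function of the sets of this group, of the content
  of the joint memory and of the coins -/
  mem : ι → Fin R → (q : G) → ({i : I // grp i = q} → Finset (Fin u)) → A → Fin W
  /-- the query algorithm for the pair `(i, j)`: it knows the coins and the joint memory, and
  reads the separate memories of the groups of `i` and of `j` adaptively -/
  query : ι → Fin R → I → I → Alg A W

/-- The content of the separate memory of the group `q` on the family `F`. -/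
def DS.sep {I G : Type} {grp : I → G} {u R W : ℕ} {A ι : Type} (D : DS I G grp u R W A ι) (c : ι)
    (F : I → Finset (Fin u)) (q : G) : A → Fin W :=
  D.mem c (D.joint c F) q (fun i => F i.1)

/-- With the coins `c`, on the family `F`, the query `(i, j)` reads at most `T` cells and answers
correctly whether `F i` and `F j` meet. -/
def DS.Good {I G : Type} {grp : I → G} {u R W : ℕ} {A ι : Type} (D : DS I G grp u R W A ι) (c : ι)
    (F : I → Finset (Fin u)) (i j : I) (T : ℕ) : Prop :=
  (D.query c (D.joint c F) i j).cost (D.sep c F (grp i)) (D.sep c F (grp j)) ≤ T ∧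
  (D.query c (D.joint c F) i j).eval (D.sep c F (grp i)) (D.sep c F (grp j)) =
    decide ((F i ∩ F j).Nonempty)

/-- The set of a function. -/
def enc (n N : ℕ) (x : Fin n → Fin n) : Finset (Fin (n * n + N)) :=
  univ.image fun l : Fin n => Fin.castAdd N (finProdFinEquiv (l, x l))

/-- The padding set. -/
def pad (n N s : ℕ) (hs : s ≤ N) : Finset (Fin (n * n + N)) :=
  univ.image fun l : Fin s => Fin.natAdd (n * n) (Fin.castLE hs l)

theorem enc_card (n N : ℕ) (x : Fin n → Fin n) : (enc n N x).card = n := by
  unfold enc
  rw [Finset.card_image_of_injective]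
  · simp
  · intro l l' h
    have h1 := finProdFinEquiv.injective (Fin.castAdd_injective _ _ h)
    exact congrArg Prod.fst h1

theorem pad_card (n N s : ℕ) (hs : s ≤ N) : (pad n N s hs).card = s := by
  unfold pad
  rw [Finset.card_image_of_injective]
  · simp
  · intro l l' h
    exact Fin.castLE_injective hs (Fin.natAdd_injective _ _ h)

theorem enc_meet (n N : ℕ) (x y : Fin n → Fin n) :
    decide ((enc n N x ∩ enc n N y).Nonempty) = !(dj x y) := by
  have h : (enc n N x ∩ enc n N y).Nonempty ↔ ¬ (∀ i, x i ≠ y i) := by
    constructor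
    · rintro ⟨v, hv⟩ hd
      rw [mem_inter] at hv
      unfold enc at hv
      rw [mem_image, mem_image] at hv
      obtain ⟨⟨l, _, hl⟩, ⟨l', _, hl'⟩⟩ := hv
      have h1 := finProdFinEquiv.injective (Fin.castAdd_injective _ _ (hl.trans hl'.symm))
      rw [Prod.mk.injEq] at h1
      obtain ⟨h2, h3⟩ := h1
      rw [← h2] at h3
      exact hd l h3
    · intro hd
      push Not at hd
      obtain ⟨l, hl⟩ := hd
      refine ⟨Fin.castAdd N (finProdFinEquiv (l, x l)), ?_⟩
      rw [mem_inter]
      unfold enc
      rw [mem_image, mem_image]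
      exact ⟨⟨l, mem_univ _, rfl⟩, ⟨l, mem_univ _, by rw [hl]⟩⟩
  by_cases hd : ∀ i, x i ≠ y i
  · have h1 : ¬ (enc n N x ∩ enc n N y).Nonempty := fun h2 => (h.1 h2) hd
    have h2 : dj x y = true := by
      unfold dj
      exact decide_eq_true hd
    rw [h2]
    exact decide_eq_false h1
  · have h2 : dj x y = false := by
      unfold dj
      exact decide_eq_false hd
    rw [h2]
    exact decide_eq_true (h.2 hd)

/-- The index set: two halves (`false`, `true`), each of `g` groups of `d` sets, and one more set. -/
abbrev Idx (g d : ℕ) : Type := Option ((Bool × Fin g) × Fin d)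

/-- The groups. -/
def grp (g d : ℕ) : Idx g d → Option (Bool × Fin g)
  | none => none
  | some (q, _) => some q

/-- The sets of one group, as a function of its input. -/
def loc (n N g d s : ℕ) (hs : s ≤ N) (x : Fin d → Fin n → Fin n) :
    Idx g d → Finset (Fin (n * n + N))
  | none => pad n N s hs
  | some (_, a) => enc n N (x a)

/-- The hard family. -/
def fam (n N g d s : ℕ) (hs : s ≤ N)
    (z : (Fin g → Fin d → Fin n → Fin n) × (Fin g → Fin d → Fin n → Fin n)) :
    Idx g d → Finset (Fin (n * n + N))
  | none => pad n N s hs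
  | some ((false, q), a) => enc n N (z.1 q a)
  | some ((true, q), a) => enc n N (z.2 q a)

theorem fam_left (n N g d s : ℕ) (hs : s ≤ N)
    (z : (Fin g → Fin d → Fin n → Fin n) × (Fin g → Fin d → Fin n → Fin n)) (q : Fin g) :
    (fun i : {i : Idx g d // grp g d i = some (false, q)} => fam n N g d s hs z i.1) =
      fun i => loc n N g d s hs (z.1 q) i.1 := by
  funext i
  obtain ⟨i, hi⟩ := i
  rcases i with _ | ⟨⟨σ, q'⟩, a⟩
  · exact absurd hi (by simp [grp])
  · simp only [grp, Option.some.injEq, Prod.mk.injEq] at hi
    obtain ⟨h1, h2⟩ := hi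
    subst h1 h2
    rfl

theorem fam_right (n N g d s : ℕ) (hs : s ≤ N)
    (z : (Fin g → Fin d → Fin n → Fin n) × (Fin g → Fin d → Fin n → Fin n)) (q : Fin g) :
    (fun i : {i : Idx g d // grp g d i = some (true, q)} => fam n N g d s hs z i.1) =
      fun i => loc n N g d s hs (z.2 q) i.1 := by
  funext i
  obtain ⟨i, hi⟩ := i
  rcases i with _ | ⟨⟨σ, q'⟩, a⟩
  · exact absurd hi (by simp [grp])
  · simp only [grp, Option.some.injEq, Prod.mk.injEq] at hi
    obtain ⟨h1, h2⟩ := hi
    subst h1 h2
    rfl

theorem fam_card (n N g d : ℕ) (hs : N - 2 * g * d * n ≤ N) (hk : 2 * g * d * n ≤ N)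
    (z : (Fin g → Fin d → Fin n → Fin n) × (Fin g → Fin d → Fin n → Fin n)) :
    ∑ i, (fam n N g d (N - 2 * g * d * n) hs z i).card = N := by
  rw [Fintype.sum_option, Fintype.sum_prod_type, Fintype.sum_prod_type, Fintype.sum_bool]
  simp only [fam, pad_card, enc_card]
  simp only [Finset.sum_const, Finset.card_univ, Fintype.card_fin, smul_eq_mul]
  have : g * (d * n) + g * (d * n) = 2 * g * d * n := by ring
  omega

theorem grp_card (g d : ℕ) (hd : 1 ≤ d) (q : Option (Bool × Fin g)) :
    Nat.card {i : Idx g d // grp g d i = q} ≤ d := by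
  rcases q with _ | q
  · have : Nat.card {i : Idx g d // grp g d i = none} ≤ Nat.card (Fin 1) := by
      refine Nat.card_le_card_of_injective (fun _ => (0 : Fin 1)) ?_
      intro x y _
      obtain ⟨x, hx⟩ := x
      obtain ⟨y, hy⟩ := y
      apply Subtype.ext
      rcases x with _ | x
      · rcases y with _ | y
        · rfl
        · exact absurd hy (by simp [grp])
      · exact absurd hx (by simp [grp])
    rw [Nat.card_fin] at this
    omega
  · have : Nat.card {i : Idx g d // grp g d i = some q} ≤ Nat.card (Fin d) := by
      refine Nat.card_le_card_of_injective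
        (fun i => match i.1 with | none => ⟨0, hd⟩ | some x => x.2) ?_
      intro x y h
      obtain ⟨x, hx⟩ := x
      obtain ⟨y, hy⟩ := y
      apply Subtype.ext
      rcases x with _ | x
      · exact absurd hx (by simp [grp])
      · rcases y with _ | y
        · exact absurd hy (by simp [grp])
        · simp only [grp, Option.some.injEq] at hx hy
          simp only at h
          rw [Option.some.injEq]
          exact Prod.ext (hx.trans hy.symm) h
    rwa [Nat.card_fin] at this

/-- The parameters: at least one group on each side. -/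
theorem param_pos (N b d n g : ℕ) (hb : 1 ≤ b) (hd : 1 ≤ d) (hN : 20000 * b * d ≤ N)
    (hn : n = max (10000 * b) (Nat.sqrt (75 * N / d) + 1)) (hg : g = N / (2 * n * d)) :
    1 ≤ g := by
  rw [hg]
  have hn0 : 0 < n := by rw [hn]; exact lt_of_lt_of_le (Nat.succ_pos _) (le_max_right _ _)
  refine Nat.div_pos ?_ (by positivity)
  rcases le_total (10000 * b) (Nat.sqrt (75 * N / d) + 1) with hc | hc
  · rw [max_eq_right hc] at hn
    set s := Nat.sqrt (75 * N / d) with hs
    have h5 : s * s ≤ 75 * N / d := Nat.sqrt_le _
    have h6 : s * s * d ≤ 75 * N :=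
      (Nat.mul_le_mul_right d h5).trans (Nat.div_mul_le_self _ _)
    have hs1 : 1 ≤ s := by omega
    have h7 : n ≤ 2 * s := by omega
    have hdN : 1200 * d ≤ N := by
      have : 1 * d ≤ b * d := Nat.mul_le_mul_right d hb
      nlinarith
    have h8 : (4 * s * d) * (4 * s * d) ≤ N * N := by
      calc (4 * s * d) * (4 * s * d) = 16 * d * (s * s * d) := by ring
        _ ≤ 16 * d * (75 * N) := Nat.mul_le_mul_left _ h6
        _ = 1200 * d * N := by ring
        _ ≤ N * N := Nat.mul_le_mul_right _ hdN
    have h9 : 4 * s * d ≤ N := Nat.mul_self_le_mul_self_iff.1 h8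
    calc 2 * n * d ≤ 2 * (2 * s) * d := by
          exact Nat.mul_le_mul_right _ (Nat.mul_le_mul_left _ h7)
      _ = 4 * s * d := by ring
      _ ≤ N := h9
  · rw [max_eq_left hc] at hn
    rw [hn]
    calc 2 * (10000 * b) * d = 20000 * b * d := by ring
      _ ≤ N := hN

/-- The parameters: the conclusion. -/
theorem params (N b d n g r : ℕ) (hb : 1 ≤ b) (hd : 1 ≤ d) (hN : 20000 * b * d ≤ N)
    (hn : n = max (10000 * b) (Nat.sqrt (75 * N / d) + 1)) (hg : g = N / (2 * n * d))
    (hg1 : 1 ≤ g) (h : g * g * d ≤ 6000 * (r + 1)) :
    N ≤ 10 ^ 7 * (r + 1) ∨ N ^ 2 ≤ 10 ^ 13 * b ^ 2 * d * (r + 1) := by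
  have hn1 : 0 < n := by rw [hn]; exact lt_of_lt_of_le (Nat.succ_pos _) (le_max_right _ _)
  have hn0 : 0 < 2 * n * d := by positivity
  have h1 : N < 2 * n * d * (g + 1) := by
    rw [hg]
    exact Nat.lt_mul_div_succ N hn0
  have h2 : N ≤ 4 * n * d * g := by
    have : 2 * n * d * (g + 1) ≤ 2 * n * d * (2 * g) := Nat.mul_le_mul_left _ (by omega)
    calc N ≤ 2 * n * d * (2 * g) := by omega
      _ = _ := by ring
  have h3 : N ^ 2 ≤ 96000 * (n ^ 2 * d) * (r + 1) := by
    calc N ^ 2 ≤ (4 * n * d * g) ^ 2 := Nat.pow_le_pow_left h2 2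
      _ = 16 * (n ^ 2 * d) * (g * g * d) := by ring
      _ ≤ 16 * (n ^ 2 * d) * (6000 * (r + 1)) := Nat.mul_le_mul_left _ h
      _ = _ := by ring
  have hdN : 20000 * d ≤ N := by
    have : 1 * d ≤ b * d := Nat.mul_le_mul_right d hb
    nlinarith
  rcases le_total (10000 * b) (Nat.sqrt (75 * N / d) + 1) with hc | hc
  · left
    rw [max_eq_right hc] at hn
    set s := Nat.sqrt (75 * N / d) with hs
    have h5 : s * s ≤ 75 * N / d := Nat.sqrt_le _
    have h6 : s * s * d ≤ 75 * N :=
      (Nat.mul_le_mul_right d h5).trans (Nat.div_mul_le_self _ _)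
    have hs1 : 9999 ≤ s := by omega
    have h7 : n ^ 2 * d ≤ 100 * N := by
      have h8 : 9999 * (s * d) ≤ 75 * N := by
        calc 9999 * (s * d) ≤ s * (s * d) := Nat.mul_le_mul_right _ hs1
          _ = s * s * d := by ring
          _ ≤ _ := h6
      have h9 : n ^ 2 * d = s * s * d + 2 * (s * d) + d := by
        rw [hn]
        ring
      omega
    have h8 : N * N ≤ N * (9600000 * (r + 1)) := by
      calc N * N = N ^ 2 := by ring
        _ ≤ 96000 * (n ^ 2 * d) * (r + 1) := h3
        _ ≤ 96000 * (100 * N) * (r + 1) := Nat.mul_le_mul_right _ (Nat.mul_le_mul_left _ h7)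
        _ = _ := by ring
    have hN0 : 0 < N := by omega
    have h9 := Nat.le_of_mul_le_mul_left h8 hN0
    omega
  · right
    rw [max_eq_left hc] at hn
    calc N ^ 2 ≤ 96000 * (n ^ 2 * d) * (r + 1) := h3
      _ = 9600000000000 * b ^ 2 * d * (r + 1) := by
          rw [hn]
          ring
      _ ≤ 10 ^ 13 * b ^ 2 * d * (r + 1) := by
          refine Nat.mul_le_mul_right _ (Nat.mul_le_mul_right _ (Nat.mul_le_mul_right _ ?_))
          norm_num

open Classical in
/-- **Theorem.** Let `N`, `b ≥ 1` and `d ≥ 1` be given with `20000 * b * d ≤ N`. There are a finite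
index set `I`, a partition of it into groups of at most `d` indices (the fibers of `grp`) and a
universe size `u` such that the following holds for all `r`, `w`, `T` with `T * w ≤ b`. Suppose
that a randomised data structure with a joint memory of `r` bits, which every query reads for free,
and with a separate memory for each group, whose cells have `w` bits, decides for every family of
total size `N` of subsets of `Fin u` with index set `I` and for every pair of indices in different
groups whether the two sets meet, reading at most `T` cells of the separate memories of the two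
groups, except with probability `1 / 200000`. Then `N ≤ 10 ^ 7 * (r + 1)` or
`N ^ 2 ≤ 10 ^ 13 * b ^ 2 * d * (r + 1)`. -/
theorem result (N b d : ℕ) (hb : 1 ≤ b) (hd : 1 ≤ d) (hN : 20000 * b * d ≤ N) :
    ∃ (I G : Type) (_ : Fintype I) (grp : I → G) (u : ℕ),
      (∀ q : G, Nat.card {i : I // grp i = q} ≤ d) ∧
      ∀ r w T : ℕ, T * w ≤ b →
      ∀ (A ι : Type) [Fintype ι] (pr : ι → ℝ), (∀ c, 0 ≤ pr c) → ∑ c, pr c = 1 →
      ∀ D : DS I G grp u (2 ^ r) (2 ^ w) A ι,
      (∀ F : I → Finset (Fin u), ∑ i, (F i).card = N → ∀ i j : I, grp i ≠ grp j →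
        ∑ c, (if D.Good c F i j T then 0 else pr c) ≤ 1 / 200000) →
      N ≤ 10 ^ 7 * (r + 1) ∨ N ^ 2 ≤ 10 ^ 13 * b ^ 2 * d * (r + 1) := by
  set n := max (10000 * b) (Nat.sqrt (75 * N / d) + 1) with hn
  set g := N / (2 * n * d) with hg
  have hg1 : 1 ≤ g := param_pos N b d n g hb hd hN hn hg
  refine ⟨Idx g d, Option (Bool × Fin g), inferInstance, grp g d, n * n + N, grp_card g d hd, ?_⟩
  intro r w T hTw A ι _ pr hpr0 hpr1 D hD
  have hnb : 10000 * b ≤ n := le_max_left _ _
  have hns : Nat.sqrt (75 * N / d) + 1 ≤ n := le_max_right _ _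
  have hn2 : 2 ≤ n := by omega
  have hkN : 2 * g * d * n ≤ N := by
    have := Nat.div_mul_le_self N (2 * n * d)
    rw [← hg] at this
    calc 2 * g * d * n = g * (2 * n * d) := by ring
      _ ≤ N := this
  have hs : N - 2 * g * d * n ≤ N := Nat.sub_le _ _
  have hn75 : 75 * N < n * n * d := by
    have h1 := Nat.lt_succ_sqrt (75 * N / d)
    have h2 : (Nat.sqrt (75 * N / d) + 1) * (Nat.sqrt (75 * N / d) + 1) ≤ n * n :=
      Nat.mul_le_mul hns hns
    have h3 : 75 * N / d < n * n := lt_of_lt_of_le h1 h2
    have h4 := Nat.lt_mul_div_succ (75 * N) (show 0 < d from hd)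
    calc 75 * N < d * (75 * N / d + 1) := h4
      _ ≤ d * (n * n) := Nat.mul_le_mul_left _ h3
      _ = n * n * d := by ring
  have hgn : 150 * g ≤ n := by
    by_contra hcon
    push Not at hcon
    have h1 : n * (n * d) ≤ 150 * g * (n * d) := Nat.mul_le_mul_right _ hcon.le
    have h2 : 150 * g * (n * d) = 75 * (2 * g * d * n) := by ring
    have h3 : 75 * (2 * g * d * n) ≤ 75 * N := Nat.mul_le_mul_left _ hkN
    have h4 : n * (n * d) = n * n * d := by ring
    omega
  -- choice of the coins
  have hne : ∀ (I J : Fin g) (a a' : Fin d),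
      grp g d (some ((false, I), a)) ≠ grp g d (some ((true, J), a')) := by
    intro I J a a' h
    simp [grp] at h
  obtain ⟨c, hc⟩ := exists_le_avg pr hpr0 hpr1
    (fun c => ∑ z : (Fin g → Fin d → Fin n → Fin n) × (Fin g → Fin d → Fin n → Fin n),
      ((univ.filter fun e : (Fin g × Fin g) × Fin d =>
        ¬ D.Good c (fam n N g d (N - 2 * g * d * n) hs z)
        (some ((false, e.1.1), e.2)) (some ((true, e.1.2), e.2)) T).card : ℝ))
    (1 / 200000 * ((Fintype.card ((Fin g × Fin g) × Fin d) : ℕ) *
      (Fintype.card ((Fin g → Fin d → Fin n → Fin n) × (Fin g → Fin d → Fin n → Fin n)) :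
        ℕ))) (by
      have h1 : ∀ c, pr c * ∑ z : (Fin g → Fin d → Fin n → Fin n) ×
          (Fin g → Fin d → Fin n → Fin n),
          ((univ.filter fun e : (Fin g × Fin g) × Fin d =>
            ¬ D.Good c (fam n N g d (N - 2 * g * d * n) hs z)
            (some ((false, e.1.1), e.2)) (some ((true, e.1.2), e.2)) T).card : ℝ) =
          ∑ z : (Fin g → Fin d → Fin n → Fin n) × (Fin g → Fin d → Fin n → Fin n),
          ∑ e : (Fin g × Fin g) × Fin d,
            (if D.Good c (fam n N g d (N - 2 * g * d * n) hs z)
              (some ((false, e.1.1), e.2)) (some ((true, e.1.2), e.2)) T then 0 else pr c) := by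
        intro c
        rw [Finset.mul_sum]
        refine Finset.sum_congr rfl fun z _ => ?_
        rw [Finset.card_filter]
        push_cast
        rw [Finset.mul_sum]
        refine Finset.sum_congr rfl fun e _ => ?_
        by_cases hg : D.Good c (fam n N g d (N - 2 * g * d * n) hs z)
          (some ((false, e.1.1), e.2)) (some ((true, e.1.2), e.2)) T
        · rw [if_neg (not_not.2 hg), if_pos hg, mul_zero]
        · rw [if_pos hg, if_neg hg, mul_one]
      simp_rw [h1]
      rw [Finset.sum_comm]
      calc ∑ z : (Fin g → Fin d → Fin n → Fin n) × (Fin g → Fin d → Fin n → Fin n),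
            ∑ c, ∑ e : (Fin g × Fin g) × Fin d,
            (if D.Good c (fam n N g d (N - 2 * g * d * n) hs z)
              (some ((false, e.1.1), e.2)) (some ((true, e.1.2), e.2)) T then 0 else pr c)
          ≤ ∑ _z : (Fin g → Fin d → Fin n → Fin n) × (Fin g → Fin d → Fin n → Fin n),
              ∑ _e : (Fin g × Fin g) × Fin d, (1 / 200000 : ℝ) := by
            refine Finset.sum_le_sum fun z _ => ?_
            rw [Finset.sum_comm]
            refine Finset.sum_le_sum fun e _ => ?_
            exact hD (fam n N g d (N - 2 * g * d * n) hs z) (fam_card n N g d hs hkN z) _ _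
              (hne _ _ _ _)
        _ = _ := by
            rw [Finset.sum_const, Finset.sum_const, Finset.card_univ, Finset.card_univ,
              nsmul_eq_mul, nsmul_eq_mul]
            ring)
  have hcore := coreD g d n b r T (2 ^ w) A Nat.one_le_two_pow
    (by
      rw [← pow_mul]
      exact Nat.pow_le_pow_right (by norm_num) (by rw [mul_comm]; exact hTw))
    hn2 hg1 hd hnb hgn
    (fun z => D.joint c (fam n N g d (N - 2 * g * d * n) hs z))
    (fun ρ I J a => D.query c ρ (some ((false, I), a)) (some ((true, J), a)))
    (fun ρ I x => D.mem c ρ (some (false, I))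
      (fun i => loc n N g d (N - 2 * g * d * n) hs x i.1))
    (fun ρ J y => D.mem c ρ (some (true, J))
      (fun i => loc n N g d (N - 2 * g * d * n) hs y i.1))
    (fun z e => D.Good c (fam n N g d (N - 2 * g * d * n) hs z)
      (some ((false, e.1.1), e.2)) (some ((true, e.1.2), e.2)) T)
    (by
      intro z e
      unfold DS.Good DS.sep
      have h1 : grp g d (some ((false, e.1.1), e.2)) = some (false, e.1.1) := rfl
      have h2 : grp g d (some ((true, e.1.2), e.2)) = some (true, e.1.2) := rfl
      rw [h1, h2, fam_left, fam_right]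
      have h3 : fam n N g d (N - 2 * g * d * n) hs z (some ((false, e.1.1), e.2)) =
        enc n N (z.1 e.1.1 e.2) := rfl
      have h4 : fam n N g d (N - 2 * g * d * n) hs z (some ((true, e.1.2), e.2)) =
        enc n N (z.2 e.1.2 e.2) := rfl
      rw [h3, h4, enc_meet])
    hc
  exact params N b d n g r hb hd hN hn hg hg1 hcore

end Pool.Agent.Results.MP_f326ae_lc.FreeJointMemory
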