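import Mathlib
import Pool.Agent.T2h38.JM.Avg

/-!
# Emptiness of intersections: few adaptive probes to cells which depend on all sets

A family of sets of total size `N` is preprocessed into

* `S` *joint cells* of `w` bits, which are arbitrary functions of the whole family,
* `r` bits, an arbitrary function of the whole family, which every query knows for free, and
* an unlimited *separate memory* for each set, an arbitrary function of this one set (and of its
  index, of the `r` free bits and of the coins).

A query `(i, j)` has to decide whether the sets `i` and `j` meet. It reads at most `t` joint cells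
and at most `b` bits (`T` cells of `w'` bits, `T * w' ≤ b`) of the separate memories of `i` and `j`,
adaptively in any order: every address may depend on all that has been read. Everything may be
random, with error probability `1 / 200000`.

The theorem: if `b ≤ D / 100`, where `D ^ 3 ≥ 64000 * t ^ 2 * 2 ^ t * (l + w + 1) * N` and
`D ^ 2 ≤ N / 400`, and `N, S ≤ 2 ^ l`, then `r ≥ N / (1.6 * 10 ^ 8 * 2 ^ t)` or
`(1.6 * 10 ^ 8 * 2 ^ t * S * w) ^ t * 13 * D ^ 2 ≥ N ^ (t + 1)`. So for a constant number `t` of
joint probes and words of polylogarithmic length the space is at least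
`N * (N / b ^ 2) ^ (1 / t)` up to polylogarithmic factors, for `N ^ (1 / 3) ≤ b ≤ N ^ (1 / 2)`, even
if the query reads `b` bits of the separate memories and a small multiple of `N` bits for free.

Proof. There are `k` sets on each side and for each pair one considers the event that its query
survives, i.e. that the joint cells it reads are in a random sample of the cells (of density
`1 / q` with `q ^ t` about `k / D`), or have a large load. The contents of these cells are guessed.
Then each query is a protocol, and its correctness gives a kernel on pairs of sets which has a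
small norm as a bilinear form on `ℓ_p`, `p = 1 + 1 / n`, if it is restricted to the surviving leaves.
The main inequality says that the sum over all inputs of the product over all pairs of these
kernels is at most twice the number of inputs, if the inputs are restricted to those for which no
row and no column has more than `D` surviving pairs: a new pair adds only an exponentially small
error. The rows and columns with too many surviving pairs are guessed, too. In this way the number
of surviving pairs, about `k * D`, is at most a multiple of the number of guessed bits.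
-/

namespace Pool.Agent.Results.MP_f326ae_lc.ProbesToJointMemory

open Finset Pool.Agent.T2h38.JM

/-- A randomised data structure for families of `m` subsets of `Fin u`, with a free joint memory
with `R` possible contents, `S` joint cells holding elements of `Fin V`, and with a separate memory
for each set, whose cells (with addresses in `A`) hold elements of `Fin W`; `ι` is the set of
outcomes of the coins. -/
structure DS (m u R S V W : ℕ) (A ι : Type) where
  /-- the free joint memory, a function of the whole family -/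
  free : ι → (Fin m → Finset (Fin u)) → Fin R
  /-- the joint cells, functions of the whole family -/
  joint : ι → (Fin m → Finset (Fin u)) → Fin S → Fin V
  /-- the separate memory of the set with index `i`, a function of this set alone, of the free
  joint memory and of the coins -/
  mem : ι → Fin R → Fin m → Finset (Fin u) → A → Fin W
  /-- the query algorithm for the pair `(i, j)`: it knows the coins and the free joint memory, and
  reads the joint cells and the separate memories of `i` and `j` adaptively -/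
  query : ι → Fin R → Fin m → Fin m → QAlg A S V W

/-- With the coins `c`, on the family `F`, the query `(i, j)` reads at most `T` cells of the
separate memories and at most `t` joint cells and answers correctly whether `F i` and `F j`
meet. -/
def DS.Good {m u R S V W : ℕ} {A ι : Type} (X : DS m u R S V W A ι) (c : ι)
    (F : Fin m → Finset (Fin u)) (i j : Fin m) (T t : ℕ) : Prop :=
  (X.query c (X.free c F) i j).reads (X.joint c F) (X.mem c (X.free c F) i (F i))
    (X.mem c (X.free c F) j (F j)) ≤ T ∧
  (X.query c (X.free c F) i j).probes (X.joint c F) (X.mem c (X.free c F) i (F i))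
    (X.mem c (X.free c F) j (F j)) ≤ t ∧
  (X.query c (X.free c F) i j).eval (X.joint c F) (X.mem c (X.free c F) i (F i))
    (X.mem c (X.free c F) j (F j)) = decide ((F i ∩ F j).Nonempty)

/-- The set of a function. -/
def enc (n N : ℕ) (x : Fin n → Fin n) : Finset (Fin (n * n + N)) :=
  univ.image fun l : Fin n => Fin.castAdd N (finProdFinEquiv (l, x l))

/-- The padding set. -/
def pad (n N s : ℕ) (hs : s ≤ N) : Finset (Fin (n * n + N)) :=
  univ.image fun l : Fin s => Fin.natAdd (n * n) (Fin.castLE hs l)

theorem enc_card (n N : ℕ) (x : Fin n → Fin n) : (enc n N x).card = n := by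
  unfold enc
  rw [Finset.card_image_of_injective]
  · simp
  · intro l l' h
    have h1 := finProdFinEquiv.injective (Fin.castAdd_injective _ _ h)
    exact congrArg Prod.fst h1

theorem pad_card (n N s : ℕ) (hs : s ≤ N) : (pad n N s hs).card = s := by
  unfold pad
  rw [Finset.card_image_of_injective]
  · simp
  · intro l l' h
    exact Fin.castLE_injective hs (Fin.natAdd_injective _ _ h)

theorem enc_meet (n N : ℕ) (x y : Fin n → Fin n) :
    decide ((enc n N x ∩ enc n N y).Nonempty) = !(dj x y) := by
  have h : (enc n N x ∩ enc n N y).Nonempty ↔ ¬ (∀ i, x i ≠ y i) := by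
    constructor
    · rintro ⟨v, hv⟩ hd
      rw [mem_inter] at hv
      unfold enc at hv
      rw [mem_image, mem_image] at hv
      obtain ⟨⟨l, _, hl⟩, ⟨l', _, hl'⟩⟩ := hv
      have h1 := finProdFinEquiv.injective (Fin.castAdd_injective _ _ (hl.trans hl'.symm))
      rw [Prod.mk.injEq] at h1
      obtain ⟨h2, h3⟩ := h1
      rw [← h2] at h3
      exact hd l h3
    · intro hd
      push Not at hd
      obtain ⟨l, hl⟩ := hd
      refine ⟨Fin.castAdd N (finProdFinEquiv (l, x l)), ?_⟩
      rw [mem_inter]
      unfold enc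
      rw [mem_image, mem_image]
      exact ⟨⟨l, mem_univ _, rfl⟩, ⟨l, mem_univ _, by rw [hl]⟩⟩
  by_cases hd : ∀ i, x i ≠ y i
  · have h1 : ¬ (enc n N x ∩ enc n N y).Nonempty := fun h2 => (h.1 h2) hd
    have h2 : dj x y = true := by
      unfold dj
      exact decide_eq_true hd
    rw [h2]
    exact decide_eq_false h1
  · have h2 : dj x y = false := by
      unfold dj
      exact decide_eq_false hd
    rw [h2]
    exact decide_eq_true (h.2 hd)

/-- The hard family. -/
def fam (n N k s : ℕ) (hs : s ≤ N)
    (z : (Fin k → Fin n → Fin n) × (Fin k → Fin n → Fin n)) :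
    Fin (k + k + 1) → Finset (Fin (n * n + N)) :=
  Fin.snoc (α := fun _ => Finset (Fin (n * n + N)))
    (Fin.append (fun i => enc n N (z.1 i)) (fun j => enc n N (z.2 j)))
    (pad n N s hs)

theorem fam_left (n N k s : ℕ) (hs : s ≤ N)
    (z : (Fin k → Fin n → Fin n) × (Fin k → Fin n → Fin n)) (i : Fin k) :
    fam n N k s hs z (Fin.castAdd k i).castSucc = enc n N (z.1 i) := by
  unfold fam
  rw [Fin.snoc_castSucc, Fin.append_left]

theorem fam_right (n N k s : ℕ) (hs : s ≤ N)
    (z : (Fin k → Fin n → Fin n) × (Fin k → Fin n → Fin n)) (j : Fin k) :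
    fam n N k s hs z (Fin.natAdd k j).castSucc = enc n N (z.2 j) := by
  unfold fam
  rw [Fin.snoc_castSucc, Fin.append_right]

theorem fam_card (n N k : ℕ) (hs : N - 2 * k * n ≤ N) (hk : 2 * k * n ≤ N)
    (z : (Fin k → Fin n → Fin n) × (Fin k → Fin n → Fin n)) :
    ∑ i, (fam n N k (N - 2 * k * n) hs z i).card = N := by
  have hlast : fam n N k (N - 2 * k * n) hs z (Fin.last (k + k)) =
      pad n N (N - 2 * k * n) hs := by
    unfold fam
    rw [Fin.snoc_last]
  rw [Fin.sum_univ_castSucc, Fin.sum_univ_add, hlast, pad_card]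
  simp_rw [fam_left, fam_right, enc_card]
  rw [Finset.sum_const, Finset.card_univ, Fintype.card_fin, smul_eq_mul]
  have : k * n + k * n = 2 * k * n := by ring
  omega

open Classical in
/-- **Theorem.** Let `N`, `t ≥ 1`, `w`, `l`, `b`, `D` be given with `N ≤ 2 ^ l`, `100 * b ≤ D`,
`64000 * t ^ 2 * 2 ^ t * (l + w + 1) * N ≤ D ^ 3` and `400 * D ^ 2 ≤ N`. There are a number `m` of
sets and a universe size `u` such that the following holds for all `r`, all `S ≤ 2 ^ l` and all
`T`, `w'` with `T * w' ≤ b`. Suppose that a randomised data structure with `r` bits of free joint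
memory, `S` joint cells of `w` bits and a separate memory for each single set, whose cells have
`w'` bits, decides for every family of `m` subsets of `Fin u` of total size `N` and every pair
`i ≠ j` whether `F i` and `F j` meet, reading adaptively at most `t` joint cells and at most `T`
cells of the separate memories of `i` and `j`, except with probability `1 / 200000`. Then
`N ≤ 160000000 * 2 ^ t * r` or `N ^ (t + 1) ≤ (160000000 * 2 ^ t * (S * w)) ^ t * (13 * D ^ 2)`. -/
theorem result (N t w l b D : ℕ) (ht : 1 ≤ t) (hN : N ≤ 2 ^ l) (hb : 100 * b ≤ D)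
    (hD1 : 64000 * (t ^ 2 * 2 ^ t * (l + w + 1)) * N ≤ D ^ 3) (hD2 : 400 * D ^ 2 ≤ N) :
    ∃ m u : ℕ, ∀ r S T w' : ℕ, S ≤ 2 ^ l → T * w' ≤ b →
      ∀ (A ι : Type) [Fintype ι] (pr : ι → ℝ), (∀ c, 0 ≤ pr c) → ∑ c, pr c = 1 →
      ∀ X : DS m u (2 ^ r) S (2 ^ w) (2 ^ w') A ι,
      (∀ F : Fin m → Finset (Fin u), ∑ i, (F i).card = N → ∀ i j : Fin m, i ≠ j →
        ∑ c, (if X.Good c F i j T t then 0 else pr c) ≤ 1 / 200000) →
      N ≤ 160000000 * 2 ^ t * r ∨
        N ^ (t + 1) ≤ (160000000 * 2 ^ t * (S * w)) ^ t * (13 * D ^ 2) := by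
  rcases Nat.eq_zero_or_pos N with hN0 | hNpos
  · refine ⟨0, 0, ?_⟩
    intro r S T w' _ _ A ι _ pr _ _ X _
    left
    rw [hN0]
    exact Nat.zero_le _
  -- the sizes
  set cc := t ^ 2 * 2 ^ t * (l + w + 1) with hcc
  have hcc2 : 2 ^ t * (l + 1) ≤ cc := by
    rw [hcc]
    have h1 : 1 ≤ t ^ 2 := Nat.one_le_pow _ _ ht
    calc 2 ^ t * (l + 1) = 1 * 2 ^ t * (l + 1) := by ring
      _ ≤ t ^ 2 * 2 ^ t * (l + w + 1) :=
          Nat.mul_le_mul (Nat.mul_le_mul_right _ h1) (by omega)
  have hccpos : 1 ≤ cc := by
    have : 1 ≤ 2 ^ t * (l + 1) := Nat.one_le_iff_ne_zero.2 (by positivity)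
    omega
  have hDpos : 0 < D := by
    rcases Nat.eq_zero_or_pos D with h0 | h0
    · rw [h0] at hD1
      have : 0 < 64000 * cc * N := by positivity
      omega
    · exact h0
  have hDcc : 25600000 * cc ≤ D := by
    have h1 : 25600000 * cc * D ^ 2 ≤ D * D ^ 2 := by
      calc 25600000 * cc * D ^ 2 = 64000 * cc * (400 * D ^ 2) := by ring
        _ ≤ 64000 * cc * N := Nat.mul_le_mul_left _ hD2
        _ ≤ D ^ 3 := hD1
        _ = D * D ^ 2 := by ring
    exact Nat.le_of_mul_le_mul_right h1 (by positivity)
  set n := 200 * D with hn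
  set k := N / (2 * n) with hk
  have hn0 : 0 < 2 * n := by omega
  have hkD : D ≤ k := by
    rw [hk, Nat.le_div_iff_mul_le hn0]
    calc D * (2 * n) = 400 * D ^ 2 := by rw [hn]; ring
      _ ≤ N := hD2
  have hk1 : 1 ≤ k := by omega
  have hkN : 2 * k * n ≤ N := by
    have := Nat.div_mul_le_self N (2 * n)
    rw [← hk] at this
    calc 2 * k * n = k * (2 * n) := by ring
      _ ≤ N := this
  have hs : N - 2 * k * n ≤ N := Nat.sub_le _ _
  have hn2 : 2 ≤ n := by omega
  have hkleN : k ≤ N := Nat.div_le_self _ _
  have hN800 : N ≤ 800 * (k * D) := by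
    have h1 : N < 2 * n * (k + 1) := Nat.lt_mul_div_succ N hn0
    have h2 : 2 * n * (k + 1) ≤ 2 * n * (2 * k) := Nat.mul_le_mul_left _ (by omega)
    calc N ≤ 2 * n * (2 * k) := by omega
      _ = 800 * (k * D) := by rw [hn]; ring
  refine ⟨k + k + 1, n * n + N, ?_⟩
  intro r S T w' hS hTw A ι _ pr hpr0 hpr1 X hX
  have hne : ∀ i j : Fin k,
      (Fin.castAdd k i).castSucc ≠ ((Fin.natAdd k j).castSucc : Fin (k + k + 1)) := by
    intro i j h
    have h1 := congrArg Fin.val h
    simp only [Fin.val_castSucc, Fin.val_castAdd, Fin.val_natAdd] at h1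
    have := i.2
    omega
  obtain ⟨m, hm1, hm2⟩ := exists_rate k D t hk1 hDpos hkD ht
  obtain ⟨Hb, hHb1, hHb2⟩ := exists_heavy D t (by omega) ht
  have hNe : Nonempty (Fin n → Fin n) := ⟨id⟩
  -- the inequality for fixed coins
  set bad : ι → (Fin k → Fin n → Fin n) × (Fin k → Fin n → Fin n) → Fin k × Fin k → Prop :=
    fun c z e => ¬ X.Good c (fam n N k (N - 2 * k * n) hs z) (Fin.castAdd k e.1).castSucc
      (Fin.natAdd k e.2).castSucc T t with hbad
  set RHS : ℝ := Real.log (1 + 1 / 160) * (2 * (k : ℝ) ^ 2 *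
          ((k : ℝ) / ((m : ℝ) + 1) ^ (2 * t) + ((1 + t * Hb : ℕ) : ℝ) / ((m : ℝ) + 1) ^ t)) / D +
        (Real.log 2 + ((t * (k * k) / (Hb + 1) : ℕ) : ℝ) *
          Real.log ((S * (2 ^ w) + 1 : ℕ) : ℝ) +
          (S : ℝ) / ((m : ℝ) + 1) * Real.log ((2 ^ w : ℕ) : ℝ) + 2 * k * Real.log 2 +
          Real.log ((2 ^ r : ℕ) : ℝ)) with hRHS
  set Zc : ℝ := ((Fintype.card ((Fin k → (Fin n → Fin n)) × (Fin k → (Fin n → Fin n))) : ℕ) : ℝ)
    with hZc
  have hZ0 : 0 < Zc := by
    rw [hZc]
    exact_mod_cast Fintype.card_pos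
  have hlogk : 8000 * Real.log (2 * (k : ℝ) ^ 2) ≤ ((n : ℕ) : ℝ) := by
    have h1 : 2 * (k : ℝ) ^ 2 ≤ (2 : ℝ) ^ (2 * l + 1) := by
      have h2 : 2 * k ^ 2 ≤ 2 ^ (2 * l + 1) := by
        calc 2 * k ^ 2 ≤ 2 * (2 ^ l) ^ 2 :=
              Nat.mul_le_mul_left _ (Nat.pow_le_pow_left (hkleN.trans hN) 2)
          _ = 2 ^ (2 * l + 1) := by ring
      exact_mod_cast h2
    have h3 : Real.log (2 * (k : ℝ) ^ 2) ≤ ((2 * l + 1 : ℕ) : ℝ) * Real.log 2 := by
      rw [← Real.log_pow]
      have hk0 : (0 : ℝ) < k := by exact_mod_cast hk1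
      exact Real.log_le_log (by positivity) h1
    have h4 : ((2 * l + 1 : ℕ) : ℝ) * Real.log 2 ≤ ((2 * l + 1 : ℕ) : ℝ) * (7 / 10) :=
      mul_le_mul_of_nonneg_left (by linarith [Real.log_two_lt_d9]) (by positivity)
    have h5 : 28 * (2 * l + 1) ≤ D := by
      have h6 : l + 1 ≤ cc := by
        have : 1 ≤ 2 ^ t := Nat.one_le_two_pow
        nlinarith
      omega
    have h6 : (28 : ℝ) * ((2 * l + 1 : ℕ) : ℝ) ≤ D := by exact_mod_cast h5
    rw [hn]
    push_cast at h3 h4 h6 ⊢
    linarith
  have hcoin : ∀ c : ι, ∑ z : (Fin k → Fin n → Fin n) × (Fin k → Fin n → Fin n),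
      ∑ e : Fin k × Fin k, wt2 (1 + 1 / 160) (1 / 4000) (dj (z.1 e.1) (z.2 e.2) = true)
        (bad c z e) ≤ Zc * RHS * ((m : ℝ) + 1) ^ t := by
    intro c
    have h1 := coin_ineq (1 + 1 / 160) (1 / 4000) (by norm_num) (by norm_num)
      (dj (n := n))
      (fun (x : Fin (2 ^ r)) (i j : Fin k) =>
        X.query c x (Fin.castAdd k i).castSucc (Fin.natAdd k j).castSucc)
      (fun x i y => X.mem c x (Fin.castAdd k i).castSucc (enc n N y))
      (fun x j y => X.mem c x (Fin.natAdd k j).castSucc (enc n N y))
      (fun z => X.free c (fam n N k (N - 2 * k * n) hs z))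
      T t D Hb m hDpos ⟨0, Nat.pos_of_ne_zero (by positivity)⟩
      (fun z => X.joint c (fam n N k (N - 2 * k * n) hs z))
      (fun P x ρ H' E => sc_all n T t D b (by omega) Nat.one_le_two_pow
        (by
          rw [← pow_mul]
          exact Nat.pow_le_pow_right (by norm_num) (by rw [mul_comm]; exact hTw))
        (by omega) (by omega) hk1 hlogk _ _ _ P ρ H' E)
    rw [← hZc] at h1
    have h2 : ∀ (z : (Fin k → Fin n → Fin n) × (Fin k → Fin n → Fin n)) (e : Fin k × Fin k),
        bad c z e ↔ ((X.query c (X.free c (fam n N k (N - 2 * k * n) hs z))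
          (Fin.castAdd k e.1).castSucc (Fin.natAdd k e.2).castSucc).run
          (X.joint c (fam n N k (N - 2 * k * n) hs z))
          (X.mem c (X.free c (fam n N k (N - 2 * k * n) hs z)) (Fin.castAdd k e.1).castSucc
            (enc n N (z.1 e.1)))
          (X.mem c (X.free c (fam n N k (N - 2 * k * n) hs z)) (Fin.natAdd k e.2).castSucc
            (enc n N (z.2 e.2))) T t ∅).1 ≠ some (!(dj (z.1 e.1) (z.2 e.2))) := by
      intro z e
      rw [hbad]
      simp only
      rw [Ne, run_iff]
      unfold DS.Good
      rw [fam_left, fam_right, enc_meet]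
    have hm0 : (0 : ℝ) < ((m : ℝ) + 1) ^ t := by positivity
    rw [div_le_iff₀ hm0] at h1
    refine le_trans (le_of_eq ?_) h1
    refine Finset.sum_congr rfl fun z _ => Finset.sum_congr rfl fun e _ => ?_
    unfold wt2
    rw [propext (h2 z e)]
  have havg := avg_weight n k hn2 (1 + 1 / 160) (1 / 4000) (by norm_num) pr hpr1 bad
    (by
      intro z e
      have h1 := hX (fam n N k (N - 2 * k * n) hs z) (fam_card n N k hs hkN z) _ _ (hne e.1 e.2)
      refine le_trans (le_of_eq ?_) h1
      refine Finset.sum_congr rfl fun c _ => ?_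
      rw [hbad]
      simp only
      by_cases hg : X.Good c (fam n N k (N - 2 * k * n) hs z) (Fin.castAdd k e.1).castSucc
        (Fin.natAdd k e.2).castSucc T t
      · rw [if_neg (not_not.2 hg), if_pos hg]
      · rw [if_pos hg, if_neg hg])
  rw [← hZc] at havg
  have hup : ∑ c, pr c * ∑ z : (Fin k → Fin n → Fin n) × (Fin k → Fin n → Fin n),
      ∑ e : Fin k × Fin k, wt2 (1 + 1 / 160) (1 / 4000) (dj (z.1 e.1) (z.2 e.2) = true)
        (bad c z e) ≤ Zc * RHS * ((m : ℝ) + 1) ^ t := by
    calc _ ≤ ∑ c, pr c * (Zc * RHS * ((m : ℝ) + 1) ^ t) :=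
          Finset.sum_le_sum fun c _ => mul_le_mul_of_nonneg_left (hcoin c) (hpr0 c)
      _ = _ := by rw [← Finset.sum_mul, hpr1, one_mul]
  have hmain : (k : ℝ) ^ 2 * (Real.log (1 + 1 / 160) / 4 -
        (Real.log (1 + 1 / 160) + Real.log 2) / 200000 - 1 / 4000) / ((m : ℝ) + 1) ^ t ≤ RHS := by
    have hm0 : (0 : ℝ) < ((m : ℝ) + 1) ^ t := by positivity
    rw [div_le_iff₀ hm0]
    have h1 := havg.trans hup
    rw [mul_assoc Zc] at h1
    exact le_of_mul_le_mul_left h1 hZ0
  have hnum := num2 k D t w l S (2 ^ w) Hb m r hk1 ht rfl hS hm1 hm2 hHb1 hHb2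
    (by
      have h1 : 2 ^ t ≤ cc := by
        calc 2 ^ t = 2 ^ t * 1 := (mul_one _).symm
          _ ≤ 2 ^ t * (l + 1) := Nat.mul_le_mul_left _ (by omega)
          _ ≤ cc := hcc2
      omega)
    (by
      rw [← hcc]
      have h1 : 25600000 * cc * k * D ≤ D ^ 2 * D := by
        calc 25600000 * cc * k * D = 64000 * cc * (2 * k * n) := by rw [hn]; ring
          _ ≤ 64000 * cc * N := Nat.mul_le_mul_left _ hkN
          _ ≤ D ^ 3 := hD1
          _ = D ^ 2 * D := by ring
      exact Nat.le_of_mul_le_mul_right h1 hDpos)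
    hmain
  rcases hnum with h1 | h1
  · left
    calc N ≤ 800 * (k * D) := hN800
      _ ≤ 800 * (200000 * 2 ^ t * r) := Nat.mul_le_mul_left _ h1
      _ = 160000000 * 2 ^ t * r := by ring
  · right
    exact num3 N k D t (m + 1) (S * w) hN800 hm1 h1

end Pool.Agent.Results.MP_f326ae_lc.ProbesToJointMemory
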